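import Pool.Agent.X196.CS.Semi

/-!
# Every second countable locally compact group carries an absolutely continuous `w*`-continuous
convolution semigroup

The semigroup is a limit of compound Poisson semigroups `exp (t Σ_{n ≤ N} (ρ_n - δ_e))` of total
rate `N`, where the absolutely continuous jump distributions `ρ_n` are chosen one after the other,
concentrated so near to the identity that they almost do not change (from either side) the sum of
the previous ones.  Then the measures converge in total variation for every `t > 0`, and the part
of the measure which is not absolutely continuous has mass at most `exp (-t N)` for all `N`.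
-/

set_option autoImplicit false

open MeasureTheory Filter Topology
open scoped ZeroAtInfty

namespace Pool.Agent.Results.MP_5d826d_an.AbsolutelyContinuousSemigroup

variable {H : Type*} [Group H] [TopologicalSpace H] [IsTopologicalGroup H]
  [MeasurableSpace H] [BorelSpace H]

/-- A convolution semigroup of probability measures `μ t`, `t ≥ 0` (the values at negative `t` are
irrelevant): `μ (s + t) = μ s * μ t` and `μ 0 = δ_e`. -/
structure IsConvolutionSemigroup (μ : ℝ → Measure H) : Prop where
  prob : ∀ t, 0 ≤ t → IsProbabilityMeasure (μ t)
  add : ∀ s t, 0 ≤ s → 0 ≤ t → μ (s + t) = (μ s).mconv (μ t)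
  zero : μ 0 = Measure.dirac 1

/-- `w*`-continuity: `∫ f dμ_t → f(e)` as `t → 0+`, for all continuous functions `f : H → ℂ`
vanishing at infinity. -/
def WStarContinuous (μ : ℝ → Measure H) : Prop :=
  ∀ f : C₀(H, ℂ), Tendsto (fun t => ∫ x, f x ∂(μ t)) (𝓝[>] 0) (𝓝 (f 1))

/-- **Q1, positive answer.** On every second countable locally compact group `H` with Haar measure
`m` there is a `w*`-continuous convolution semigroup `μ` such that `μ t` is absolutely continuous
with respect to `m` for every `t > 0`. -/
theorem result (H : Type*) [Group H] [TopologicalSpace H] [IsTopologicalGroup H]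
    [LocallyCompactSpace H] [SecondCountableTopology H] [T2Space H] [MeasurableSpace H]
    [BorelSpace H] (m : Measure H) [m.IsHaarMeasure] :
    ∃ μ : ℝ → Measure H, IsConvolutionSemigroup μ ∧ WStarContinuous μ ∧ ∀ t, 0 < t → μ t ≪ m := by
  obtain ⟨μ, h1, h2, h3, h4, h5⟩ := Pool.Agent.X196.CS.exists_semigroup m
  refine ⟨μ, ⟨fun t _ => h1 t, h3, h2⟩, fun f => ?_, h5⟩
  have hre := h4 (fun x => (f x).re) (Complex.continuous_re.comp f.continuous)
    ((Complex.continuous_re.tendsto 0).comp (zero_at_infty f))
  have him := h4 (fun x => (f x).im) (Complex.continuous_im.comp f.continuous)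
    ((Complex.continuous_im.tendsto 0).comp (zero_at_infty f))
  have hint : ∀ t, Integrable (fun x => f x) (μ t) := by
    intro t
    have := h1 t
    exact f.toBCF.integrable (μ t)
  have h6 : Tendsto (fun t => ((∫ x, (f x).re ∂(μ t) : ℝ) : ℂ) +
      ((∫ x, (f x).im ∂(μ t) : ℝ) : ℂ) * Complex.I) (𝓝[>] 0)
      (𝓝 (((f 1).re : ℂ) + ((f 1).im : ℂ) * Complex.I)) :=
    ((Complex.continuous_ofReal.tendsto _).comp hre).add
      (((Complex.continuous_ofReal.tendsto _).comp him).mul_const Complex.I)
  rw [Complex.re_add_im] at h6
  refine h6.congr fun t => ?_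
  have h7 := integral_re_add_im (hint t)
  exact h7

end Pool.Agent.Results.MP_5d826d_an.AbsolutelyContinuousSemigroup
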